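import Mathlib

set_option autoImplicit false

namespace Pool.Agent.Results.MP_5875c4_co.Tall

open Set Metric

/-- Euclidean space -/
abbrev E (k : ℕ) : Type := EuclideanSpace ℝ (Fin k)

/-- the Newton covering number -/
noncomputable def N {k : ℕ} (C : Set (E k)) : ℕ∞ :=
  ⨅ (n : ℕ) (_ : ∃ (f : Fin n → E k ≃ᵢ E k) (ε : ℝ), 0 < ε ∧
    ∀ x ∈ C, closedBall x ε ⊆ ⋃ i, f i '' C), (n : ℕ∞)

/-- the unit cube -/
def cube (k : ℕ) : Set (E k) := {x | ∀ i, x i ∈ Icc (0 : ℝ) 1}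

/-- the right pyramid of height `h` over the `k`-cube -/
def pyr (k : ℕ) (h : ℝ) : Set (E (k + 1)) :=
  convexHull ℝ ({x | (∀ i : Fin k, x i.castSucc ∈ Icc (0 : ℝ) 1) ∧ x (Fin.last k) = 0} ∪
    {x | (∀ i : Fin k, x i.castSucc = 1 / 2) ∧ x (Fin.last k) = h})

lemma two_le : 2 ≤ N (cube 2) := by
  refine le_iInf₂ fun n ⟨f, ε, hε, h⟩ => ?_
  have h0 := h 0 (by simp [cube])
  have h1 := h !₂[1, 1] (by simp [cube])
  rcases n with _ | _ | n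
  · simpa using h0 (mem_closedBall_self hε.le)
  · exfalso
    obtain ⟨i, x, hx, e1⟩ := mem_iUnion.1 (h0 (a := !₂[-ε, 0]) (by
      simp [EuclideanSpace.norm_eq, Real.sqrt_sq hε.le]))
    obtain ⟨j, y, hy, e2⟩ := mem_iUnion.1 (h1 (mem_closedBall_self hε.le))
    have := (f i).dist_eq x y
    rw [Subsingleton.elim (α := Fin 1) j i] at e2
    rw [e1, e2, EuclideanSpace.dist_eq, EuclideanSpace.dist_eq, Real.sqrt_inj (by positivity)
      (by positivity)] at this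
    simp only [Fin.sum_univ_two, Real.dist_eq, sq_abs] at this
    simp at this
    nlinarith [(hx 0).1, (hx 0).2, (hx 1).1, (hx 1).2, (hy 0).1, (hy 0).2, (hy 1).1, (hy 1).2]
  · exact_mod_cast (by omega : 2 ≤ n + 1 + 1)

lemma mem_pyr (x : E 3) : x ∈ pyr 2 10 → 0 ≤ x 2 ∧ x 2 / 20 ≤ x 0 ∧ x 0 ≤ 1 - x 2 / 20 ∧
    x 2 / 20 ≤ x 1 ∧ x 1 ≤ 1 - x 2 / 20 := by
  intro h
  refine convexHull_min (t := {x : E 3 | 0 ≤ x 2 ∧ x 2 / 20 ≤ x 0 ∧ x 0 ≤ 1 - x 2 / 20 ∧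
    x 2 / 20 ≤ x 1 ∧ x 1 ≤ 1 - x 2 / 20}) ?_ ?_ h
  · rintro y (⟨h1, h2⟩ | ⟨h1, h2⟩)
    · have a0 : y 0 ∈ Icc (0 : ℝ) 1 := h1 0
      have a1 : y 1 ∈ Icc (0 : ℝ) 1 := h1 1
      have a2 : y 2 = 0 := h2
      simp [a2, a0.1, a0.2, a1.1, a1.2]
    · have a0 : y 0 = 1 / 2 := h1 0
      have a1 : y 1 = 1 / 2 := h1 1
      have a2 : y 2 = 10 := h2
      simp only [mem_setOf_eq, a0, a1, a2]; norm_num
  · rintro y ⟨a1, a2, a3, a4, a5⟩ z ⟨b1, b2, b3, b4, b5⟩ s t hs ht hst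
    simp only [mem_setOf_eq, PiLp.add_apply, PiLp.smul_apply, smul_eq_mul]
    refine ⟨by positivity, ?_, ?_, ?_, ?_⟩ <;> nlinarith

lemma pyr_mem (x : E 3) (h0 : 0 ≤ x 2) (h1 : x 2 / 20 ≤ x 0) (h2 : x 0 ≤ 1 - x 2 / 20)
    (h3 : x 2 / 20 ≤ x 1) (h4 : x 1 ≤ 1 - x 2 / 20) : x ∈ pyr 2 10 := by
  rcases eq_or_lt_of_le (show x 2 ≤ 10 by linarith) with h | h
  · refine subset_convexHull _ _ (Or.inr ⟨fun i => ?_, h⟩)
    fin_cases i
    · show x 0 = 1 / 2; linarith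
    · show x 1 = 1 / 2; linarith
  have hp : 0 < 1 - x 2 / 10 := by linarith
  have m1 : (!₂[(x 0 - x 2 / 20) / (1 - x 2 / 10), (x 1 - x 2 / 20) / (1 - x 2 / 10), 0] : E 3)
      ∈ pyr 2 10 := subset_convexHull ℝ _ (Or.inl ⟨fun i => by
    fin_cases i
    · exact ⟨div_nonneg (by linarith) hp.le, div_le_one_of_le₀ (by linarith) hp.le⟩
    · exact ⟨div_nonneg (by linarith) hp.le, div_le_one_of_le₀ (by linarith) hp.le⟩, rfl⟩)
  have m2 : (!₂[1 / 2, 1 / 2, 10] : E 3) ∈ pyr 2 10 :=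
    subset_convexHull ℝ _ (Or.inr ⟨fun i => by fin_cases i <;> rfl, rfl⟩)
  have := convex_convexHull ℝ _ m1 m2 hp.le (by positivity : 0 ≤ x 2 / 10) (by ring)
  unfold pyr
  convert this
  ext i
  fin_cases i <;> simp [mul_div_cancel₀ _ hp.ne'] <;> ring

/-- a rotation putting the base into a vertical section -/
noncomputable def g : E 3 ≃ᵢ E 3 where
  toFun x := !₂[1 / 2 + 4 / 5 * (x 0 - 1 / 2) - 3 / 5 * x 2,
    1 / 2 + 3 / 5 * (x 0 - 1 / 2) + 4 / 5 * x 2, x 1 + 1 / 100]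
  invFun x := !₂[1 / 2 + 4 / 5 * (x 0 - 1 / 2) + 3 / 5 * (x 1 - 1 / 2), x 2 - 1 / 100,
    4 / 5 * (x 1 - 1 / 2) - 3 / 5 * (x 0 - 1 / 2)]
  left_inv x := by ext i; fin_cases i <;> simp <;> ring
  right_inv x := by ext i; fin_cases i <;> simp <;> ring
  isometry_toFun := Isometry.of_dist_eq fun x y => by
    simp only [EuclideanSpace.dist_eq, Fin.sum_univ_three, Real.dist_eq, sq_abs]
    congr 1; simp; ring

theorem result : ¬ ∀ k ≥ 2, ∀ h > 0, N (pyr k h) = N (cube k) + 1 := by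
  intro H
  have h1 : N (pyr 2 10) ≤ 2 := by
    refine iInf₂_le (2 : ℕ) ⟨![g.symm, IsometryEquiv.addRight !₂[0, 0, 1 / 20]], 1 / 1000,
      by norm_num, fun x hx y hy => ?_⟩
    obtain ⟨a0, a1, a2, a3, a4⟩ := mem_pyr x hx
    have b : ∀ i, |y i - x i| ≤ 1 / 1000 := fun i => (PiLp.dist_apply_le y x i).trans hy
    have b0 := abs_le.1 (b 0)
    have b1 := abs_le.1 (b 1)
    have b2 := abs_le.1 (b 2)
    by_cases hz : y 2 ≤ 1 / 20
    · refine mem_iUnion.2 ⟨0, g y, pyr_mem _ ?_ ?_ ?_ ?_ ?_, g.symm_apply_apply y⟩ <;>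
        simp [g] <;> linarith
    · refine mem_iUnion.2 ⟨1, y - !₂[0, 0, 1 / 20], pyr_mem _ ?_ ?_ ?_ ?_ ?_, by simp⟩ <;>
        simp <;> linarith
  rw [H 2 le_rfl 10 (by norm_num)] at h1
  exact absurd ((add_le_add two_le le_rfl).trans h1) (by norm_num)

end Pool.Agent.Results.MP_5875c4_co.Tall
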